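import Pool.Agent.Lib.MP_ef18bd_co.Tab

/-! Kernel check of the tables. -/

namespace EF18

theorem chk_all : (List.range 42).all chk = true := by decide +kernel

/-- admissible pairs of labels, in terms of the features -/
def edgeB (x y : ℕ) : Bool :=
  !((fld (F x) 2).beq 1 && (fld (F y) 2).beq 1) &&
  (!((fld (F x) 3).beq 1) || (fld (F y) 5).beq 1) &&
  (!((fld (F y) 3).beq 1) || (fld (F x) 5).beq 1) &&
  (!((fld (F x) 2).beq 1 && (fld (F x) 3).beq 0) || ((fld (F y) 4).beq 1 && (fld (F y) 5).beq 0)) &&
  (!((fld (F y) 2).beq 1 && (fld (F y) 3).beq 0) || ((fld (F x) 4).beq 1 && (fld (F x) 5).beq 0)) &&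
  (!((fld (F x) 5).beq 1) || (fld (F y) 6).beq 1) &&
  (!((fld (F y) 5).beq 1) || (fld (F x) 6).beq 1) &&
  (fld (F x) 0 + fld (F y) 0).ble 3 &&
  (!((fld (F x) 0 + fld (F y) 0).beq 3) || ((fld (F x) 1).beq 1 && (fld (F y) 1).beq 1))

theorem edge_nb : ∀ x ∈ List.range 42, ∀ y ∈ List.range 42, edgeB x y = true → (nb x).contains y = true := by
  decide +kernel

theorem pot_symm : ∀ x ∈ List.range 42, ∀ y ∈ List.range 42,
    potA x y + potA y x = 131072 ∧ potB x y + potB y x = 131072 := by
  decide +kernel

theorem F_eq : ∀ g ∈ List.range 3, ∀ s ∈ List.range 2, ∀ t ∈ List.range 7,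
    F (14 * g + 7 * s + t) = g + 16 * s + 256 * (if t ≤ 1 then 1 else 0) + 4096 * (if t = 0 then 1 else 0) +
      65536 * (if t = 4 ∨ t = 6 then 0 else 1) + 1048576 * (if t = 0 ∨ t = 2 then 1 else 0) +
      16777216 * (if t = 1 ∨ t = 5 ∨ t = 6 then 0 else 1) +
      268435456 * (if g = 0 ∧ s = 0 then 1 else 0) + 4294967296 * (if g = 1 ∧ s = 1 then 1 else 0) := by
  decide +kernel

theorem fld_digits {a0 a1 a2 a3 a4 a5 a6 a7 a8 : ℕ} (h0 : a0 ≤ 6) (h1 : a1 ≤ 6) (h2 : a2 ≤ 6) (h3 : a3 ≤ 6)
    (h4 : a4 ≤ 6) (h5 : a5 ≤ 6) (h6 : a6 ≤ 6) (h7 : a7 ≤ 6) (h8 : a8 ≤ 6) (t : ℕ)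
    (ht : t = a0 + 16 * a1 + 256 * a2 + 4096 * a3 + 65536 * a4 + 1048576 * a5 + 16777216 * a6 +
      268435456 * a7 + 4294967296 * a8) :
    fld t 0 = a0 ∧ fld t 1 = a1 ∧ fld t 2 = a2 ∧ fld t 3 = a3 ∧ fld t 4 = a4 ∧ fld t 5 = a5 ∧ fld t 6 = a6 ∧
      fld t 7 = a7 ∧ fld t 8 = a8 := by
  simp only [fld, show (16:ℕ) ^ 0 = 1 from rfl, show (16:ℕ) ^ 1 = 16 from rfl, show (16:ℕ) ^ 2 = 256 from rfl,
    show (16:ℕ) ^ 3 = 4096 from rfl, show (16:ℕ) ^ 4 = 65536 from rfl, show (16:ℕ) ^ 5 = 1048576 from rfl,
    show (16:ℕ) ^ 6 = 16777216 from rfl, show (16:ℕ) ^ 7 = 268435456 from rfl,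
    show (16:ℕ) ^ 8 = 4294967296 from rfl]
  refine ⟨?_, ?_, ?_, ?_, ?_, ?_, ?_, ?_, ?_⟩ <;> omega

theorem blt_false {b c : ℕ} (h : b ≤ c) : Nat.blt c b = false := by
  unfold Nat.blt
  refine Bool.eq_false_iff.2 (fun h' => ?_)
  have := Nat.le_of_ble_eq_true h'
  omega

/-- the check, for sorted triples -/
theorem chk_sorted {a b c d : ℕ} (ha : a < 42) (hb : (nb a).contains b = true) (hc : (nb a).contains c = true)
    (hd : (nb a).contains d = true) (hbc : b ≤ c) (hcd : c ≤ d)
    (hl : legal (F a) (F b + F c + F d) = true) :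
    ineq (F a) (potA a b + potA a c + potA a d) (potB a b + potB a c + potB a d) = true := by
  have h := chk_all
  rw [List.all_eq_true] at h
  have h1 := h a (List.mem_range.2 ha)
  unfold chk at h1
  rw [List.all_eq_true] at h1
  have h2 := h1 b (by simpa using hb)
  rw [List.all_eq_true] at h2
  have h3 := h2 c (by simpa using hc)
  have hbc' : Nat.blt c b = false := blt_false hbc
  rw [hbc', Bool.false_or, List.all_eq_true] at h3
  have h4 := h3 d (by simpa using hd)
  have hcd' : Nat.blt d c = false := blt_false hcd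
  rw [hcd', Bool.false_or, hl] at h4
  simpa using h4

/-- the check, for all triples -/
theorem chk_triple {a b c d : ℕ} (ha : a < 42) (hb : (nb a).contains b = true) (hc : (nb a).contains c = true)
    (hd : (nb a).contains d = true) (hl : legal (F a) (F b + F c + F d) = true) :
    ineq (F a) (potA a b + potA a c + potA a d) (potB a b + potB a c + potB a d) = true := by
  rcases le_total b c with h1 | h1 <;> rcases le_total c d with h2 | h2 <;> rcases le_total b d with h3 | h3
  · exact chk_sorted ha hb hc hd h1 h2 hl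
  · exact chk_sorted ha hb hc hd h1 h2 hl
  · have := chk_sorted ha hb hd hc h3 h2 (by rw [show F b + F d + F c = F b + F c + F d by ring]; exact hl)
    rwa [show potA a b + potA a d + potA a c = potA a b + potA a c + potA a d by ring,
      show potB a b + potB a d + potB a c = potB a b + potB a c + potB a d by ring] at this
  · have := chk_sorted ha hd hb hc h3 h1 (by rw [show F d + F b + F c = F b + F c + F d by ring]; exact hl)
    rwa [show potA a d + potA a b + potA a c = potA a b + potA a c + potA a d by ring,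
      show potB a d + potB a b + potB a c = potB a b + potB a c + potB a d by ring] at this
  · have := chk_sorted ha hc hb hd h1 h3 (by rw [show F c + F b + F d = F b + F c + F d by ring]; exact hl)
    rwa [show potA a c + potA a b + potA a d = potA a b + potA a c + potA a d by ring,
      show potB a c + potB a b + potB a d = potB a b + potB a c + potB a d by ring] at this
  · have := chk_sorted ha hc hd hb h2 h3 (by rw [show F c + F d + F b = F b + F c + F d by ring]; exact hl)
    rwa [show potA a c + potA a d + potA a b = potA a b + potA a c + potA a d by ring,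
      show potB a c + potB a d + potB a b = potB a b + potB a c + potB a d by ring] at this
  · have := chk_sorted ha hd hc hb h2 h1 (by rw [show F d + F c + F b = F b + F c + F d by ring]; exact hl)
    rwa [show potA a d + potA a c + potA a b = potA a b + potA a c + potA a d by ring,
      show potB a d + potB a c + potB a b = potB a b + potB a c + potB a d by ring] at this
  · have := chk_sorted ha hd hc hb h2 h1 (by rw [show F d + F c + F b = F b + F c + F d by ring]; exact hl)
    rwa [show potA a d + potA a c + potA a b = potA a b + potA a c + potA a d by ring,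
      show potB a d + potB a c + potB a b = potB a b + potB a c + potB a d by ring] at this

end EF18
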