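import Mathlib

/-!
# Minus and signed domination: definitions
-/

namespace EF18

open Finset

variable {V : Type} [Fintype V] [DecidableEq V]

/-- the closed neighbourhood of `v` -/
def cn (G : SimpleGraph V) [DecidableRel G.Adj] (v : V) : Finset V := insert v (G.neighborFinset v)

/-- minus dominating functions -/
def MinusDom (G : SimpleGraph V) [DecidableRel G.Adj] (f : V → ℤ) : Prop :=
  (∀ v, f v = -1 ∨ f v = 0 ∨ f v = 1) ∧ ∀ v, 1 ≤ ∑ u ∈ cn G v, f u

/-- signed dominating functions -/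
def SignedDom (G : SimpleGraph V) [DecidableRel G.Adj] (f : V → ℤ) : Prop :=
  (∀ v, f v = -1 ∨ f v = 1) ∧ ∀ v, 1 ≤ ∑ u ∈ cn G v, f u

/-- minimal minus dominating functions -/
def MinimalMinus (G : SimpleGraph V) [DecidableRel G.Adj] (f : V → ℤ) : Prop :=
  MinusDom G f ∧ ∀ g : V → ℤ, MinusDom G g → (∀ v, g v ≤ f v) → g = f

/-- minimal signed dominating functions -/
def MinimalSigned (G : SimpleGraph V) [DecidableRel G.Adj] (f : V → ℤ) : Prop :=
  SignedDom G f ∧ ∀ g : V → ℤ, SignedDom G g → (∀ v, g v ≤ f v) → g = f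

/-- the upper minus domination number -/
noncomputable def upperMinus (G : SimpleGraph V) [DecidableRel G.Adj] : ℤ :=
  sSup {w : ℤ | ∃ f : V → ℤ, MinimalMinus G f ∧ w = ∑ v, f v}

/-- the upper signed domination number -/
noncomputable def upperSigned (G : SimpleGraph V) [DecidableRel G.Adj] : ℤ :=
  sSup {w : ℤ | ∃ f : V → ℤ, MinimalSigned G f ∧ w = ∑ v, f v}

theorem mem_cn {G : SimpleGraph V} [DecidableRel G.Adj] {u v : V} : u ∈ cn G v ↔ u = v ∨ G.Adj v u := by
  simp [cn]

theorem mem_cn_comm {G : SimpleGraph V} [DecidableRel G.Adj] {u v : V} : u ∈ cn G v ↔ v ∈ cn G u := by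
  rw [mem_cn, mem_cn, G.adj_comm, eq_comm]

theorem self_mem_cn {G : SimpleGraph V} [DecidableRel G.Adj] {v : V} : v ∈ cn G v := mem_cn.2 (Or.inl rfl)

/-- a packing: every closed neighbourhood contains at most one vertex of the set -/
def Pk (G : SimpleGraph V) [DecidableRel G.Adj] (S : Finset V) : Prop := ∀ v, (cn G v ∩ S).card ≤ 1

/-- maximality of a packing inside a set `A` -/
def Mx (G : SimpleGraph V) [DecidableRel G.Adj] (A S : Finset V) : Prop :=
  ∀ v ∈ A, ∃ u ∈ cn G v, (cn G u ∩ S).Nonempty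

theorem exists_max (G : SimpleGraph V) [DecidableRel G.Adj] (A S0 : Finset V) (h0 : Pk G S0) (hA : S0 ⊆ A) :
    ∃ S : Finset V, Pk G S ∧ S0 ⊆ S ∧ S ⊆ A ∧ Mx G A S := by
  classical
  have hne : (A.powerset.filter (fun S => Pk G S ∧ S0 ⊆ S)).Nonempty :=
    ⟨S0, by simp [h0, hA]⟩
  obtain ⟨S, hS, hmax⟩ := exists_max_image _ (fun S : Finset V => S.card) hne
  simp only [mem_filter, mem_powerset] at hS hmax
  refine ⟨S, hS.2.1, hS.2.2, hS.1, fun v hv => ?_⟩
  by_contra hcon
  push Not at hcon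
  have hvS : v ∉ S := fun h => by
    have := hcon v self_mem_cn
    have h2 : v ∈ cn G v ∩ S := mem_inter.2 ⟨self_mem_cn, h⟩
    rw [this] at h2
    exact absurd h2 (notMem_empty v)
  have h1 := hmax (insert v S) ⟨insert_subset hv hS.1, fun u => ?_, hS.2.2.trans (subset_insert _ _)⟩
  · rw [card_insert_of_notMem hvS] at h1
    omega
  · by_cases hu : v ∈ cn G u
    · have := hcon u (mem_cn_comm.1 hu)
      rw [inter_insert_of_mem hu, this]
      simp
    · rw [inter_insert_of_notMem hu]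
      exact hS.2.1 u

end EF18
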