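import Pool.Agent.Lib.MP_ef18bd_co.Star

/-!
# Stars are legal
-/

namespace EF18

open Finset

variable {V : Type} [Fintype V] [DecidableEq V] {G : SimpleGraph V} [DecidableRel G.Adj]
  {g : V → ℕ} {S1 S : Finset V}

theorem Dat.legal (D : Dat G g S1 S) {v a b c : V} (hN : G.neighborFinset v = {a, b, c}) (hab : a ≠ b)
    (hac : a ≠ c) (hbc : b ≠ c) :
    EF18.legal (F (lab G g S1 S v)) (F (lab G g S1 S a) + F (lab G g S1 S b) + F (lab G g S1 S c)) = true := by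
  obtain ⟨v0, v1, v2, v3, v4, v5, v6, v7, v8⟩ := D.fields v
  have ga := D.g2 a
  have gb := D.g2 b
  have gc := D.g2 c
  have hp1 : Pk G S1 := fun v => (card_le_card (inter_subset_inter_left D.sub)).trans (D.pk v)
  obtain ⟨t0, t1, t2, t3, t4, t5, t6, t7, t8⟩ := fld_digits (a0 := g a + g b + g c)
    (a1 := ι (sat G g a) + ι (sat G g b) + ι (sat G g c))
    (a2 := ι (a ∈ S) + ι (b ∈ S) + ι (c ∈ S))
    (a3 := ι (a ∈ S1) + ι (b ∈ S1) + ι (c ∈ S1))
    (a4 := ι (dm G S a) + ι (dm G S b) + ι (dm G S c))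
    (a5 := ι (dm G S1 a) + ι (dm G S1 b) + ι (dm G S1 c))
    (a6 := ι (bl G S1 a) + ι (bl G S1 b) + ι (bl G S1 c))
    (a7 := ι (g a = 0 ∧ ¬ sat G g a) + ι (g b = 0 ∧ ¬ sat G g b) + ι (g c = 0 ∧ ¬ sat G g c))
    (a8 := ι (g a = 1 ∧ sat G g a) + ι (g b = 1 ∧ sat G g b) + ι (g c = 1 ∧ sat G g c))
    (by omega)
    (by have := ι_le (sat G g a); have := ι_le (sat G g b); have := ι_le (sat G g c); omega)
    (by have := ι_le (a ∈ S); have := ι_le (b ∈ S); have := ι_le (c ∈ S); omega)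
    (by have := ι_le (a ∈ S1); have := ι_le (b ∈ S1); have := ι_le (c ∈ S1); omega)
    (by have := ι_le (dm G S a); have := ι_le (dm G S b); have := ι_le (dm G S c); omega)
    (by have := ι_le (dm G S1 a); have := ι_le (dm G S1 b); have := ι_le (dm G S1 c); omega)
    (by have := ι_le (bl G S1 a); have := ι_le (bl G S1 b); have := ι_le (bl G S1 c); omega)
    (by have := ι_le (g a = 0 ∧ ¬ sat G g a); have := ι_le (g b = 0 ∧ ¬ sat G g b)
        have := ι_le (g c = 0 ∧ ¬ sat G g c); omega)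
    (by have := ι_le (g a = 1 ∧ sat G g a); have := ι_le (g b = 1 ∧ sat G g b)
        have := ι_le (g c = 1 ∧ sat G g c); omega)
    (F (lab G g S1 S a) + F (lab G g S1 S b) + F (lab G g S1 S c))
    (by rw [D.feat a, D.feat b, D.feat c]; ring)
  unfold EF18.legal
  rw [v0, v1, v2, v3, v4, v5, v6, t0, t1, t2, t3, t4, t5, t7, t8]
  have hsum := sum_cn hN hab hac hbc g
  have hsat : sat G g v ↔ g v + (g a + g b + g c) = 3 := by unfold sat; rw [hsum]
  simp only [Bool.and_eq_true]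
  refine ⟨⟨⟨⟨⟨⟨⟨⟨?_, ?_⟩, ?_⟩, ?_⟩, ?_⟩, ?_⟩, ?_⟩, ?_⟩, ?_⟩
  · have := D.h2 v
    rw [hsum] at this
    exact ble_t this
  · by_cases h : sat G g v
    · rw [ι_true h, hsat.1 h]; rfl
    · rw [ι_false h]
      have h' : g v + (g a + g b + g c) ≠ 3 := fun h' => h (hsat.2 h')
      rw [beq_f h']
      rfl
  · by_cases h : g v = 2
    · simp [h]
    · have h1 := D.h3 v (by have := D.g2 v; omega)
      have h2 := (exc_iff hN (sat G g)).1 h1
      have h3 := one_le_sum4.2 h2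
      rw [Bool.or_eq_true]
      exact Or.inr (ble_t h3)
  · have h := D.pk v
    rw [card_cn hN hab hac hbc S] at h
    exact ble_t h
  · rw [dm_eq hN hab hac hbc D.pk]
    exact Nat.beq_refl _
  · rw [dm_eq hN hab hac hbc hp1]
    exact Nat.beq_refl _
  · have hb : bl G S1 v ↔ 1 ≤ ι (dm G S1 v) + (ι (dm G S1 a) + ι (dm G S1 b) + ι (dm G S1 c)) := by
      rw [one_le_sum4]; exact exc_iff hN _
    by_cases h : bl G S1 v
    · rw [ι_true h, ble_t (hb.1 h)]; rfl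
    · rw [ι_false h]
      have h' : Nat.ble 1 (ι (dm G S1 v) + (ι (dm G S1 a) + ι (dm G S1 b) + ι (dm G S1 c))) = false := by
        rw [Bool.eq_false_iff]
        intro h'
        exact h (hb.2 (Nat.le_of_ble_eq_true h'))
      rw [h']; rfl
  · have h1 := D.mx v (mem_univ v)
    have h2 := (exc_iff hN (dm G S)).1 h1
    exact ble_t (one_le_sum4.2 h2)
  · have hA : (g v = 2 ∨ (g v = 1 ∧ ∑ x ∈ cn G v, g x = 3 ∧
      (∃ u, G.Adj v u ∧ g u = 1 ∧ ∑ x ∈ cn G u, g x = 3) ∧ (∃ u, G.Adj v u ∧ g u = 0 ∧ ∑ x ∈ cn G u, g x ≠ 3))) ↔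
      ((g v).beq 2 || ((g v).beq 1 && (ι (sat G g v)).beq 1 &&
        Nat.ble 1 (ι (g a = 1 ∧ sat G g a) + ι (g b = 1 ∧ sat G g b) + ι (g c = 1 ∧ sat G g c)) &&
        Nat.ble 1 (ι (g a = 0 ∧ ¬ sat G g a) + ι (g b = 0 ∧ ¬ sat G g b) + ι (g c = 0 ∧ ¬ sat G g c)))) = true := by
      rw [ex_iff hN, ex_iff hN]
      simp only [Bool.or_eq_true, Bool.and_eq_true, beq_iff, Nat.ble_eq, one_le_sum3, ι_eq_one, and_assoc]
      exact Iff.rfl
    split_ifs with h
    · have h1 := D.mxA v (hA.2 h)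
      have h2 : bl G S1 v := h1
      rw [ι_true h2]; rfl
    · have h1 : v ∉ S1 := fun h' => h (hA.1 (D.sA v h'))
      rw [ι_false h1]; rfl

end EF18
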