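import Pool.Agent.Lib.MP_ef18bd_co.Chk
import Pool.Agent.Lib.MP_ef18bd_co.Defs

/-!
# The local inequalities, summed over the graph
-/

namespace EF18

open Finset

open scoped Classical in
/-- indicator -/
noncomputable def ι (p : Prop) : ℕ := if p then 1 else 0

theorem ι_true {p : Prop} (h : p) : ι p = 1 := by simp [ι, h]
theorem ι_false {p : Prop} (h : ¬p) : ι p = 0 := by simp [ι, h]
theorem ι_le (p : Prop) : ι p ≤ 1 := by unfold ι; split <;> omega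
theorem ι_eq_one {p : Prop} : ι p = 1 ↔ p := by unfold ι; split <;> simp_all

variable {V : Type} [Fintype V] [DecidableEq V] (G : SimpleGraph V) [DecidableRel G.Adj]

/-- data for the local argument -/
structure Dat (g : V → ℕ) (S1 S : Finset V) : Prop where
  card : ∀ v, (G.neighborFinset v).card = 3
  h2 : ∀ v, ∑ u ∈ cn G v, g u ≤ 3
  h3 : ∀ v, g v ≤ 1 → ∃ u ∈ cn G v, ∑ x ∈ cn G u, g x = 3
  g2 : ∀ v, g v ≤ 2
  sub : S1 ⊆ S
  pk : Pk G S
  mx : Mx G univ S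
  mxA : ∀ v, (g v = 2 ∨ (g v = 1 ∧ ∑ x ∈ cn G v, g x = 3 ∧
      (∃ u, G.Adj v u ∧ g u = 1 ∧ ∑ x ∈ cn G u, g x = 3) ∧ (∃ u, G.Adj v u ∧ g u = 0 ∧ ∑ x ∈ cn G u, g x ≠ 3))) →
      ∃ u ∈ cn G v, (cn G u ∩ S1).Nonempty
  sA : ∀ v ∈ S1, (g v = 2 ∨ (g v = 1 ∧ ∑ x ∈ cn G v, g x = 3 ∧
      (∃ u, G.Adj v u ∧ g u = 1 ∧ ∑ x ∈ cn G u, g x = 3) ∧ (∃ u, G.Adj v u ∧ g u = 0 ∧ ∑ x ∈ cn G u, g x ≠ 3)))

/-- saturated -/
def sat (g : V → ℕ) (v : V) : Prop := ∑ x ∈ cn G v, g x = 3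

/-- dominated by a set -/
def dm (S : Finset V) (v : V) : Prop := (cn G v ∩ S).Nonempty

/-- within distance two of a set -/
def bl (S : Finset V) (v : V) : Prop := ∃ u ∈ cn G v, dm G S u

open scoped Classical in
/-- position of a vertex -/
noncomputable def st (S1 S : Finset V) (v : V) : ℕ :=
  if v ∈ S1 then 0 else if v ∈ S then 1 else if dm G S1 v then 2 else
    if dm G S v then (if bl G S1 v then 3 else 5) else (if bl G S1 v then 4 else 6)

/-- the label -/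
noncomputable def lab (g : V → ℕ) (S1 S : Finset V) (v : V) : ℕ :=
  14 * g v + 7 * ι (sat G g v) + st G S1 S v

variable {G} {g : V → ℕ} {S1 S : Finset V}

theorem st_le (v : V) : st G S1 S v ≤ 6 := by
  unfold st
  split_ifs <;> omega

theorem Dat.lab_lt (D : Dat G g S1 S) (v : V) : lab G g S1 S v < 42 := by
  have h1 := D.g2 v
  have h2 := st_le (G := G) (S1 := S1) (S := S) v
  have h3 := ι_le (sat G g v)
  unfold lab
  omega

theorem Dat.feat (D : Dat G g S1 S) (v : V) :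
    F (lab G g S1 S v) = g v + 16 * ι (sat G g v) + 256 * ι (v ∈ S) + 4096 * ι (v ∈ S1) +
      65536 * ι (dm G S v) + 1048576 * ι (dm G S1 v) + 16777216 * ι (bl G S1 v) +
      268435456 * ι (g v = 0 ∧ ¬ sat G g v) + 4294967296 * ι (g v = 1 ∧ sat G g v) := by
  have h1 := D.g2 v
  have h2 := st_le (G := G) (S1 := S1) (S := S) v
  have h3 := ι_le (sat G g v)
  have h := F_eq (g v) (List.mem_range.2 (by omega)) (ι (sat G g v)) (List.mem_range.2 (by omega))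
    (st G S1 S v) (List.mem_range.2 (by omega))
  unfold lab
  rw [h]
  have f1 : dm G S1 v → dm G S v := fun ⟨x, hx⟩ => ⟨x, by
    rw [mem_inter] at hx ⊢
    exact ⟨hx.1, D.sub hx.2⟩⟩
  have f2 : v ∈ S → dm G S v := fun h => ⟨v, mem_inter.2 ⟨self_mem_cn, h⟩⟩
  have f3 : v ∈ S1 → dm G S1 v := fun h => ⟨v, mem_inter.2 ⟨self_mem_cn, h⟩⟩
  have f4 : dm G S1 v → bl G S1 v := fun h => ⟨v, self_mem_cn, h⟩
  have f5 : v ∈ S → v ∉ S1 → ¬ bl G S1 v := by
    rintro hS hS1 ⟨u, hu, x, hx⟩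
    rw [mem_inter] at hx
    have hv : v ∈ cn G u ∩ S := mem_inter.2 ⟨mem_cn_comm.1 hu, hS⟩
    have hx' : x ∈ cn G u ∩ S := mem_inter.2 ⟨hx.1, D.sub hx.2⟩
    have := card_le_one.1 (D.pk u) v hv x hx'
    exact hS1 (this ▸ hx.2)
  have f6 : v ∈ S1 → v ∈ S := fun h => D.sub h
  have k7 : (if g v = 0 ∧ ι (sat G g v) = 0 then 1 else 0) = ι (g v = 0 ∧ ¬ sat G g v) := by
    unfold ι
    by_cases hs : sat G g v <;> simp [hs]
  have k8 : (if g v = 1 ∧ ι (sat G g v) = 1 then 1 else 0) = ι (g v = 1 ∧ sat G g v) := by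
    unfold ι
    by_cases hs : sat G g v <;> simp [hs]
  rw [k7, k8]
  have key : (if st G S1 S v ≤ 1 then 1 else 0) = ι (v ∈ S) ∧
      (if st G S1 S v = 0 then 1 else 0) = ι (v ∈ S1) ∧
      (if st G S1 S v = 4 ∨ st G S1 S v = 6 then 0 else 1) = ι (dm G S v) ∧
      (if st G S1 S v = 0 ∨ st G S1 S v = 2 then 1 else 0) = ι (dm G S1 v) ∧
      (if st G S1 S v = 1 ∨ st G S1 S v = 5 ∨ st G S1 S v = 6 then 0 else 1) = ι (bl G S1 v) := by
    unfold st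
    by_cases c1 : v ∈ S1
    · have d1 := f6 c1
      have d2 := f3 c1
      have d3 := f4 d2
      have d4 := f2 d1
      simp [c1, d1, d2, d3, d4, ι]
    · by_cases c2 : v ∈ S
      · have d1 := f5 c2 c1
        have d2 : ¬ dm G S1 v := fun h => d1 (f4 h)
        have d3 := f2 c2
        simp [c1, c2, d1, d2, d3, ι]
      · by_cases c3 : dm G S1 v
        · have d1 := f4 c3
          have d2 := f1 c3
          simp [c1, c2, c3, d1, d2, ι]
        · by_cases c4 : dm G S v <;> by_cases c5 : bl G S1 v <;> simp [c1, c2, c3, c4, c5, ι]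
  obtain ⟨k1, k2, k3, k4, k5⟩ := key
  rw [k1, k2, k3, k4, k5]

theorem Dat.fields (D : Dat G g S1 S) (v : V) :
    fld (F (lab G g S1 S v)) 0 = g v ∧ fld (F (lab G g S1 S v)) 1 = ι (sat G g v) ∧
    fld (F (lab G g S1 S v)) 2 = ι (v ∈ S) ∧ fld (F (lab G g S1 S v)) 3 = ι (v ∈ S1) ∧
    fld (F (lab G g S1 S v)) 4 = ι (dm G S v) ∧ fld (F (lab G g S1 S v)) 5 = ι (dm G S1 v) ∧
    fld (F (lab G g S1 S v)) 6 = ι (bl G S1 v) ∧ fld (F (lab G g S1 S v)) 7 = ι (g v = 0 ∧ ¬ sat G g v) ∧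
    fld (F (lab G g S1 S v)) 8 = ι (g v = 1 ∧ sat G g v) := by
  have h1 := D.g2 v
  refine fld_digits (by omega) ?_ ?_ ?_ ?_ ?_ ?_ ?_ ?_ _ (D.feat v) <;>
    exact (ι_le _).trans (by norm_num)

end EF18
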