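import Pool.Agent.Lib.MP_ef18bd_co.Pack

/-!
# Edges and stars
-/

namespace EF18

open Finset

variable {V : Type} [Fintype V] [DecidableEq V] {G : SimpleGraph V} [DecidableRel G.Adj]
  {g : V → ℕ} {S1 S : Finset V}

open scoped Classical in
theorem ι_beq_one (p : Prop) : (ι p).beq 1 = decide p := by
  unfold ι
  by_cases h : p
  · rw [if_pos h, decide_eq_true h]; rfl
  · rw [if_neg h, decide_eq_false h]; rfl

open scoped Classical in
theorem ι_beq_zero (p : Prop) : (ι p).beq 0 = !decide p := by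
  unfold ι
  by_cases h : p
  · rw [if_pos h, decide_eq_true h]; rfl
  · rw [if_neg h, decide_eq_false h]; rfl

theorem ble_t {a b : ℕ} (h : a ≤ b) : Nat.ble a b = true := by rw [Nat.ble_eq]; exact h

theorem beq_iff {a b : ℕ} : Nat.beq a b = true ↔ a = b :=
  ⟨Nat.eq_of_beq_eq_true, fun h => h ▸ Nat.beq_refl a⟩

theorem beq_f {a b : ℕ} (h : a ≠ b) : Nat.beq a b = false :=
  Bool.eq_false_iff.2 fun h' => h (beq_iff.1 h')

theorem cn_sub_pair {v u : V} (h : G.Adj v u) : ({v, u} : Finset V) ⊆ cn G v := by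
  intro x hx
  simp only [mem_insert, mem_singleton] at hx
  rw [mem_cn]
  rcases hx with rfl | rfl
  · exact Or.inl rfl
  · exact Or.inr h

theorem pair_le {v u : V} (h : G.Adj v u) : g v + g u ≤ ∑ x ∈ cn G v, g x := by
  have h1 := sum_le_sum_of_subset (f := g) (cn_sub_pair h)
  rwa [sum_pair h.ne] at h1

theorem Dat.e1 (D : Dat G g S1 S) {v u : V} (h : G.Adj v u) (hv : v ∈ S) (hu : u ∈ S) : False := by
  have h1 := card_le_one.1 (D.pk v) v (mem_inter.2 ⟨self_mem_cn, hv⟩) u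
    (mem_inter.2 ⟨mem_cn.2 (Or.inr h), hu⟩)
  exact h.ne h1

theorem e2 {T : Finset V} {v u : V} (h : G.Adj v u) (hv : v ∈ T) : dm G T u :=
  ⟨v, mem_inter.2 ⟨mem_cn.2 (Or.inr h.symm), hv⟩⟩

theorem Dat.e4 (D : Dat G g S1 S) {v u : V} (h : G.Adj v u) (hv : v ∈ S) (hv1 : v ∉ S1) : ¬ dm G S1 u := by
  rintro ⟨x, hx⟩
  rw [mem_inter] at hx
  have := card_le_one.1 (D.pk u) v (mem_inter.2 ⟨mem_cn.2 (Or.inr h.symm), hv⟩) x
    (mem_inter.2 ⟨hx.1, D.sub hx.2⟩)
  exact hv1 (this ▸ hx.2)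

theorem e6 {T : Finset V} {v u : V} (h : G.Adj v u) (hv : dm G T v) : bl G T u :=
  ⟨v, mem_cn.2 (Or.inr h.symm), hv⟩

theorem Dat.edge (D : Dat G g S1 S) {v u : V} (h : G.Adj v u) :
    edgeB (lab G g S1 S v) (lab G g S1 S u) = true := by
  classical
  obtain ⟨v0, v1, v2, v3, v4, v5, v6, -, -⟩ := D.fields v
  obtain ⟨u0, u1, u2, u3, u4, u5, u6, -, -⟩ := D.fields u
  unfold edgeB
  rw [v0, v1, v2, v3, v4, v5, v6, u0, u1, u2, u3, u4, u5, u6]
  simp only [ι_beq_one, ι_beq_zero]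
  have h1 : ¬(v ∈ S ∧ u ∈ S) := fun ⟨c1, c2⟩ => D.e1 h c1 c2
  have h2 : v ∈ S1 → dm G S1 u := e2 h
  have h3 : u ∈ S1 → dm G S1 v := e2 h.symm
  have h4 : v ∈ S → v ∉ S1 → dm G S u ∧ ¬ dm G S1 u := fun c1 c2 => ⟨e2 h c1, D.e4 h c1 c2⟩
  have h5 : u ∈ S → u ∉ S1 → dm G S v ∧ ¬ dm G S1 v := fun c1 c2 => ⟨e2 h.symm c1, D.e4 h.symm c1 c2⟩
  have h6 : dm G S1 v → bl G S1 u := e6 h
  have h7 : dm G S1 u → bl G S1 v := e6 h.symm
  have h8 : g v + g u ≤ 3 := (pair_le h).trans (D.h2 v)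
  have h9 : (!(g v + g u).beq 3 || (decide (sat G g v) && decide (sat G g u))) = true := by
    by_cases c1 : g v + g u = 3
    · have k1 : sat G g v := le_antisymm (D.h2 v) (c1 ▸ pair_le h)
      have k2 : sat G g u := le_antisymm (D.h2 u) (by rw [← c1, add_comm]; exact pair_le h.symm)
      rw [decide_eq_true k1, decide_eq_true k2]
      simp
    · have : (g v + g u).beq 3 = false := by
        rw [Bool.eq_false_iff]; intro h'; exact c1 (Nat.eq_of_beq_eq_true h')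
      rw [this]; rfl
  rw [h9, ble_t h8]
  generalize dm G S1 v = A1 at *
  generalize dm G S1 u = A2 at *
  generalize dm G S v = A3 at *
  generalize dm G S u = A4 at *
  generalize bl G S1 v = A5 at *
  generalize bl G S1 u = A6 at *
  clear v0 v1 v2 v3 v4 v5 v6 u0 u1 u2 u3 u4 u5 u6 h8 h9
  generalize (v ∈ S) = A7 at *
  generalize (u ∈ S) = A8 at *
  generalize (v ∈ S1) = A9 at *
  generalize (u ∈ S1) = A10 at *
  simp only [Bool.and_true, Bool.and_eq_true, Bool.or_eq_true, Bool.not_eq_true', decide_eq_true_eq,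
    decide_eq_false_iff_not, Bool.and_eq_false_iff, Bool.not_eq_false']
  tauto

theorem cn_eq {v a b c : V} (hN : G.neighborFinset v = {a, b, c}) : cn G v = {v, a, b, c} := by
  unfold cn; rw [hN]

theorem sum_cn {v a b c : V} (hN : G.neighborFinset v = {a, b, c}) (hab : a ≠ b) (hac : a ≠ c) (hbc : b ≠ c)
    (f : V → ℕ) : ∑ x ∈ cn G v, f x = f v + (f a + f b + f c) := by
  have hv : v ∉ ({a, b, c} : Finset V) := by
    rw [← hN]; simp
  rw [cn_eq hN, sum_insert hv, sum_insert (by simp [hab, hac]), sum_insert (by simp [hbc]), sum_singleton]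
  ring

theorem card_cn {v a b c : V} (hN : G.neighborFinset v = {a, b, c}) (hab : a ≠ b) (hac : a ≠ c) (hbc : b ≠ c)
    (T : Finset V) : (cn G v ∩ T).card = ι (v ∈ T) + (ι (a ∈ T) + ι (b ∈ T) + ι (c ∈ T)) := by
  rw [← sum_cn hN hab hac hbc (fun x => ι (x ∈ T)), ← filter_mem_eq_inter, card_filter]
  refine sum_congr rfl fun x _ => ?_
  unfold ι
  by_cases h : x ∈ T <;> simp [h]

theorem ex_iff {v a b c : V} (hN : G.neighborFinset v = {a, b, c}) (p : V → Prop) :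
    (∃ u, G.Adj v u ∧ p u) ↔ (p a ∨ p b ∨ p c) := by
  have h : ∀ u, G.Adj v u ↔ (u = a ∨ u = b ∨ u = c) := fun u => by
    rw [← SimpleGraph.mem_neighborFinset, hN]; simp
  constructor
  · rintro ⟨u, hu, hp⟩
    rw [h] at hu
    rcases hu with rfl | rfl | rfl
    · exact Or.inl hp
    · exact Or.inr (Or.inl hp)
    · exact Or.inr (Or.inr hp)
  · rintro (hp | hp | hp)
    · exact ⟨a, (h a).2 (by simp), hp⟩
    · exact ⟨b, (h b).2 (by simp), hp⟩
    · exact ⟨c, (h c).2 (by simp), hp⟩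

theorem exc_iff {v a b c : V} (hN : G.neighborFinset v = {a, b, c}) (p : V → Prop) :
    (∃ u ∈ cn G v, p u) ↔ (p v ∨ p a ∨ p b ∨ p c) := by
  rw [cn_eq hN]
  simp

theorem one_le_sum4 {p q r s : Prop} : 1 ≤ ι p + (ι q + ι r + ι s) ↔ (p ∨ q ∨ r ∨ s) := by
  unfold ι
  by_cases h1 : p <;> by_cases h2 : q <;> by_cases h3 : r <;> by_cases h4 : s <;> simp [h1, h2, h3, h4]

theorem one_le_sum3 {q r s : Prop} : 1 ≤ ι q + ι r + ι s ↔ (q ∨ r ∨ s) := by
  unfold ι
  by_cases h2 : q <;> by_cases h3 : r <;> by_cases h4 : s <;> simp [h2, h3, h4]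

theorem dm_eq {v a b c : V} (hN : G.neighborFinset v = {a, b, c}) (hab : a ≠ b) (hac : a ≠ c) (hbc : b ≠ c)
    {T : Finset V} (hT : Pk G T) : ι (dm G T v) = ι (v ∈ T) + (ι (a ∈ T) + ι (b ∈ T) + ι (c ∈ T)) := by
  rw [← card_cn hN hab hac hbc T]
  have h1 := hT v
  by_cases h : dm G T v
  · have h2 : 0 < (cn G v ∩ T).card := card_pos.2 h
    rw [ι_true h]
    omega
  · have h2 : cn G v ∩ T = ∅ := not_nonempty_iff_eq_empty.1 h
    rw [ι_false h, h2]
    rfl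

end EF18
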