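import Pool.Agent.Lib.MP_ef18bd_co.Leg

/-!
# The two inequalities for a pair of packings
-/

namespace EF18

open Finset

variable {V : Type} [Fintype V] [DecidableEq V] {G : SimpleGraph V} [DecidableRel G.Adj]
  {g : V → ℕ} {S1 S : Finset V}

theorem sum_nbr {v a b c : V} (hN : G.neighborFinset v = {a, b, c}) (hab : a ≠ b) (hac : a ≠ c) (hbc : b ≠ c)
    (f : V → ℕ) : ∑ x ∈ G.neighborFinset v, f x = f a + f b + f c := by
  rw [hN, sum_insert (by simp [hab, hac]), sum_insert (by simp [hbc]), sum_singleton]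
  ring

theorem Dat.loc (D : Dat G g S1 S) (v : V) :
    (∑ u ∈ G.neighborFinset v, potA (lab G g S1 S v) (lab G g S1 S u)) + 144 * ι (v ∈ S) ≤ 196611 + 72 * g v ∧
    (∑ u ∈ G.neighborFinset v, potB (lab G g S1 S v) (lab G g S1 S u)) + 30 * ι (v ∈ S) + 9 ≤
      196608 + 36 * g v := by
  obtain ⟨a, b, c, hab, hac, hbc, hN⟩ := card_eq_three.1 (D.card v)
  have adj : ∀ u, u = a ∨ u = b ∨ u = c → G.Adj v u := fun u hu => by
    rw [← SimpleGraph.mem_neighborFinset, hN]; simpa using hu
  have hl := D.legal hN hab hac hbc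
  have hnb : ∀ u, u = a ∨ u = b ∨ u = c →
      (nb (lab G g S1 S v)).contains (lab G g S1 S u) = true := fun u hu =>
    edge_nb _ (List.mem_range.2 (D.lab_lt v)) _ (List.mem_range.2 (D.lab_lt u)) (D.edge (adj u hu))
  have h := chk_triple (D.lab_lt v) (hnb a (by simp)) (hnb b (by simp)) (hnb c (by simp)) hl
  obtain ⟨v0, -, v2, -⟩ := D.fields v
  unfold ineq at h
  rw [v0, v2, Bool.and_eq_true] at h
  rw [sum_nbr hN hab hac hbc, sum_nbr hN hab hac hbc]
  exact ⟨Nat.le_of_ble_eq_true h.1, Nat.le_of_ble_eq_true h.2⟩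

theorem sum_symm (hc : ∀ v, (G.neighborFinset v).card = 3) (h : V → V → ℕ)
    (hs : ∀ u v, h u v + h v u = 131072) :
    ∑ v, ∑ u ∈ G.neighborFinset v, h v u = 196608 * Fintype.card V := by
  have e : ∑ v, ∑ u ∈ G.neighborFinset v, h v u = ∑ v, ∑ u ∈ G.neighborFinset v, h u v := by
    apply sum_comm'
    intro x y
    simp [G.adj_comm]
  have e2 : ∑ v, ∑ u ∈ G.neighborFinset v, h v u + ∑ v, ∑ u ∈ G.neighborFinset v, h u v =
      393216 * Fintype.card V := by
    rw [← sum_add_distrib]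
    have : ∀ v ∈ (univ : Finset V), (∑ u ∈ G.neighborFinset v, h v u + ∑ u ∈ G.neighborFinset v, h u v) =
        393216 := fun v _ => by
      rw [← sum_add_distrib, sum_congr rfl (fun u _ => hs v u), sum_const, hc v]
      rfl
    rw [sum_congr rfl this, sum_const, card_univ, smul_eq_mul, mul_comm]
  omega

theorem Dat.total (D : Dat G g S1 S) :
    48 * S.card ≤ Fintype.card V + 24 * ∑ v, g v ∧ 10 * S.card + 3 * Fintype.card V ≤ 12 * ∑ v, g v := by
  have hS : ∑ v, ι (v ∈ S) = S.card := by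
    have h1 : S.card = ∑ v, if v ∈ S then 1 else 0 := by
      rw [← card_filter]; congr 1; ext x; simp
    rw [h1]
    refine sum_congr rfl fun x _ => ?_
    unfold ι
    by_cases h : x ∈ S <;> simp [h]
  have sA := sum_symm D.card (fun v u => potA (lab G g S1 S v) (lab G g S1 S u)) (fun u v =>
    (pot_symm _ (List.mem_range.2 (D.lab_lt u)) _ (List.mem_range.2 (D.lab_lt v))).1)
  have sB := sum_symm D.card (fun v u => potB (lab G g S1 S v) (lab G g S1 S u)) (fun u v =>
    (pot_symm _ (List.mem_range.2 (D.lab_lt u)) _ (List.mem_range.2 (D.lab_lt v))).2)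
  have h1 := sum_le_sum (s := (univ : Finset V)) fun v _ => (D.loc v).1
  have h2 := sum_le_sum (s := (univ : Finset V)) fun v _ => (D.loc v).2
  simp only [sum_add_distrib, ← mul_sum, sum_const, card_univ, smul_eq_mul] at h1 h2
  rw [sA, hS] at h1
  rw [sB, hS] at h2
  constructor <;> omega

end EF18
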