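import Pool.Agent.Lib.MP_ef18bd_co.Total

/-!
# From packings to minimal dominating functions
-/

namespace EF18

open Finset

variable {V : Type} [Fintype V] [DecidableEq V] {G : SimpleGraph V} [DecidableRel G.Adj]

theorem nbr_card (hG : G.IsRegularOfDegree 3) (v : V) : (G.neighborFinset v).card = 3 := by
  rw [SimpleGraph.card_neighborFinset_eq_degree]; exact hG v

theorem cn_card (hG : G.IsRegularOfDegree 3) (v : V) : (cn G v).card = 4 := by
  unfold cn
  rw [card_insert_of_notMem (by simp), nbr_card hG v]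

/-- complement of a minus dominating function -/
theorem toNat_sum {f : V → ℤ} (hf : ∀ v, f v ≤ 1) (s : Finset V) :
    ((∑ v ∈ s, (1 - f v).toNat : ℕ) : ℤ) = s.card - ∑ v ∈ s, f v := by
  rw [Nat.cast_sum]
  rw [sum_congr rfl (fun v _ => Int.toNat_of_nonneg (by have := hf v; omega : (0 : ℤ) ≤ 1 - f v))]
  rw [sum_sub_distrib, sum_const]
  simp

theorem minus_le_one {f : V → ℤ} (hf : MinusDom G f) (v : V) : f v ≤ 1 := by
  rcases hf.1 v with h | h | h <;> omega

/-- the critical vertex of a minimal minus dominating function -/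
theorem minus_crit {f : V → ℤ} (hf : MinimalMinus G f) {v : V} (hv : 0 ≤ f v) :
    ∃ u ∈ cn G v, ∑ x ∈ cn G u, f x = 1 := by
  by_contra hcon
  push Not at hcon
  have hsum : ∀ u, ∑ x ∈ cn G u, (f x - if x = v then 1 else 0) =
      ∑ x ∈ cn G u, f x - if v ∈ cn G u then 1 else 0 := fun u => by
    rw [sum_sub_distrib, sum_ite_eq']
  have hD : MinusDom G (fun x => f x - if x = v then 1 else 0) := by
    refine ⟨fun x => ?_, fun u => ?_⟩
    · by_cases hx : x = v
      · subst hx
        rcases hf.1.1 x with h | h | h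
        · omega
        · left; simp [h]
        · right; left; simp [h]
      · simp only [hx, if_false, sub_zero]; exact hf.1.1 x
    · rw [hsum u]
      have h1 := hf.1.2 u
      by_cases hu : v ∈ cn G u
      · have h2 := hcon u (mem_cn_comm.1 hu)
        rw [if_pos hu]
        omega
      · rw [if_neg hu]; omega
  have h := hf.2 _ hD (fun x => by
    show f x - (if x = v then 1 else 0) ≤ f x
    split_ifs <;> omega)
  have h2 := congrFun h v
  simp at h2

theorem exists_packing (hG : G.IsRegularOfDegree 3) {f : V → ℤ} (hf : MinimalMinus G f) :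
    ∃ S : Finset V, Pk G S ∧ Mx G univ S ∧
      48 * (S.card : ℤ) ≤ Fintype.card V + 24 * (Fintype.card V - ∑ v, f v) ∧
      10 * (S.card : ℤ) + 3 * Fintype.card V ≤ 12 * (Fintype.card V - ∑ v, f v) := by
  classical
  set g : V → ℕ := fun v => (1 - f v).toNat with hg
  have hle := minus_le_one hf.1
  have hgs : ∀ v, ((∑ u ∈ cn G v, g u : ℕ) : ℤ) = 4 - ∑ u ∈ cn G v, f u := fun v => by
    rw [hg, toNat_sum hle, cn_card hG v]; norm_num
  have hgf : ∀ v, (g v : ℤ) = 1 - f v := fun v => by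
    rw [hg]; exact Int.toNat_of_nonneg (by have := hle v; omega)
  set A : Finset V := univ.filter (fun v => g v = 2 ∨ (g v = 1 ∧ ∑ x ∈ cn G v, g x = 3 ∧
      (∃ u, G.Adj v u ∧ g u = 1 ∧ ∑ x ∈ cn G u, g x = 3) ∧
      (∃ u, G.Adj v u ∧ g u = 0 ∧ ∑ x ∈ cn G u, g x ≠ 3))) with hA
  obtain ⟨S1, p1, -, s1, m1⟩ := exists_max G A ∅ (fun v => by simp) (empty_subset _)
  obtain ⟨S, p2, s2, -, m2⟩ := exists_max G univ S1 p1 (subset_univ _)
  have D : Dat G g S1 S := {
    card := nbr_card hG
    h2 := fun v => by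
      have h1 := hf.1.2 v
      have h2 := hgs v
      omega
    h3 := fun v hv => by
      have h1 := hgf v
      obtain ⟨u, hu, h2⟩ := minus_crit hf (v := v) (by omega)
      refine ⟨u, hu, ?_⟩
      have h3 := hgs u
      omega
    g2 := fun v => by
      have h1 := hgf v
      rcases hf.1.1 v with h | h | h <;> omega
    sub := s2
    pk := p2
    mx := m2
    mxA := fun v hv => m1 v (by rw [hA]; simpa using hv)
    sA := fun v hv => by
      have := s1 hv
      rw [hA] at this
      simpa using this }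
  obtain ⟨t1, t2⟩ := D.total
  have h3 : ((∑ v, g v : ℕ) : ℤ) = Fintype.card V - ∑ v, f v := by
    rw [hg, toNat_sum hle, card_univ]
  refine ⟨S, p2, m2, ?_, ?_⟩
  · rw [← h3]; exact_mod_cast t1
  · rw [← h3]; exact_mod_cast t2

/-- the signed dominating function of a set -/
def sg (S : Finset V) (v : V) : ℤ := if v ∈ S then -1 else 1

theorem sg_sum (S T : Finset V) : ∑ v ∈ T, sg S v = T.card - 2 * (T ∩ S).card := by
  have h : ∀ v ∈ T, sg S v = 1 - 2 * (if v ∈ S then (1 : ℤ) else 0) := fun v _ => by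
    unfold sg; split_ifs <;> norm_num
  rw [sum_congr rfl h, sum_sub_distrib, ← mul_sum, sum_const, sum_ite_mem, sum_const]
  simp

theorem sg_minimal (hG : G.IsRegularOfDegree 3) {S : Finset V} (hp : Pk G S) (hm : Mx G univ S) :
    MinimalSigned G (sg S) := by
  refine ⟨⟨fun v => ?_, fun v => ?_⟩, fun k hk hle => ?_⟩
  · unfold sg; split_ifs <;> simp
  · rw [sg_sum, cn_card hG v]
    have := hp v
    push_cast
    omega
  · funext v
    rcases hk.1 v with h | h
    · by_contra hne
      have hv : v ∉ S := fun hv => hne (by rw [h]; unfold sg; rw [if_pos hv])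
      have hsv : sg S v = 1 := by unfold sg; rw [if_neg hv]
      obtain ⟨u, hu, hS⟩ := hm v (mem_univ v)
      have h1 := hk.2 u
      have h2 : 1 ≤ (cn G u ∩ S).card := card_pos.2 hS
      have h3 := sg_sum S (cn G u)
      rw [cn_card hG u] at h3
      have hvu : v ∈ cn G u := mem_cn_comm.1 hu
      have h4 : ∑ x ∈ cn G u, k x + 2 ≤ ∑ x ∈ cn G u, sg S x := by
        rw [← add_sum_erase _ _ hvu, ← add_sum_erase _ (sg S) hvu, h, hsv]
        have := sum_le_sum (s := (cn G u).erase v) (fun x _ => hle x)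
        omega
      push_cast at h3
      omega
    · have h2 := hle v
      unfold sg at h2 ⊢
      split_ifs at h2 ⊢ with hv
      · omega
      · exact h

theorem pk_card (hG : G.IsRegularOfDegree 3) {S : Finset V} (hp : Pk G S) : 4 * S.card ≤ Fintype.card V := by
  have h1 : ∑ v ∈ S, (cn G v).card = 4 * S.card := by
    rw [sum_congr rfl (fun v _ => cn_card hG v), sum_const, smul_eq_mul, mul_comm]
  have h2 : (S : Set V).PairwiseDisjoint (cn G) := by
    intro a ha b hb hab
    rw [Function.onFun, disjoint_left]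
    intro x hxa hxb
    exact hab (card_le_one.1 (hp x) a (mem_inter.2 ⟨mem_cn_comm.1 hxa, ha⟩) b
      (mem_inter.2 ⟨mem_cn_comm.1 hxb, hb⟩))
  have h3 : (S.biUnion (cn G)).card = ∑ v ∈ S, (cn G v).card := card_biUnion h2
  rw [← h1, ← h3]
  exact card_le_univ _

theorem minus_bdd (G : SimpleGraph V) [DecidableRel G.Adj] :
    BddAbove {w : ℤ | ∃ f : V → ℤ, MinimalMinus G f ∧ w = ∑ v, f v} := by
  refine ⟨Fintype.card V, ?_⟩
  rintro w ⟨f, hf, rfl⟩
  have := sum_le_sum (s := (univ : Finset V)) (fun v _ => minus_le_one hf.1 v)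
  simpa using this

theorem signed_bdd (G : SimpleGraph V) [DecidableRel G.Adj] :
    BddAbove {w : ℤ | ∃ f : V → ℤ, MinimalSigned G f ∧ w = ∑ v, f v} := by
  refine ⟨Fintype.card V, ?_⟩
  rintro w ⟨f, hf, rfl⟩
  have := sum_le_sum (s := (univ : Finset V)) (fun v _ => (by
    rcases hf.1.1 v with h | h <;> omega : f v ≤ 1))
  simpa using this

theorem minus_nonempty (hG : G.IsRegularOfDegree 3) :
    {w : ℤ | ∃ f : V → ℤ, MinimalMinus G f ∧ w = ∑ v, f v}.Nonempty := by
  classical
  have h1 : ∃ k : ℕ, ∃ f : V → ℤ, MinusDom G f ∧ (k : ℤ) = ∑ v, (f v + 1) := by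
    refine ⟨2 * Fintype.card V, fun _ => 1, ⟨fun v => by simp, fun v => ?_⟩, ?_⟩
    · rw [sum_const, cn_card hG v]; norm_num
    · simp; ring
  obtain ⟨f, hf, hk⟩ := Nat.find_spec h1
  refine ⟨_, f, ⟨hf, fun g hg hle => ?_⟩, rfl⟩
  by_contra hne
  have h2 : ∑ v, (g v + 1) < ∑ v, (f v + 1) := by
    apply sum_lt_sum
    · intro v _; have := hle v; omega
    · obtain ⟨v, hv⟩ := Function.ne_iff.1 hne
      exact ⟨v, mem_univ v, by have := hle v; omega⟩
  have h3 : 0 ≤ ∑ v, (g v + 1) := sum_nonneg (fun v _ => by rcases hg.1 v with h | h | h <;> omega)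
  have h4 := Nat.find_min' h1 (m := (∑ v, (g v + 1)).toNat) ⟨g, hg, Int.toNat_of_nonneg h3⟩
  have h5 : (((∑ v, (g v + 1)).toNat : ℕ) : ℤ) = ∑ v, (g v + 1) := Int.toNat_of_nonneg h3
  omega

theorem le_upperSigned (hG : G.IsRegularOfDegree 3) {S : Finset V} (hp : Pk G S) (hm : Mx G univ S) :
    (Fintype.card V : ℤ) - 2 * S.card ≤ upperSigned G := by
  refine le_csSup (signed_bdd G) ⟨sg S, sg_minimal hG hp hm, ?_⟩
  rw [sg_sum, univ_inter, card_univ]

theorem signed_nonempty (hG : G.IsRegularOfDegree 3) :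
    {w : ℤ | ∃ f : V → ℤ, MinimalSigned G f ∧ w = ∑ v, f v}.Nonempty := by
  obtain ⟨S, hp, -, -, hm⟩ := exists_max G univ ∅ (fun v => by simp) (empty_subset _)
  exact ⟨_, sg S, sg_minimal hG hp hm, rfl⟩

/-- both numbers are maxima -/
theorem attained (hG : G.IsRegularOfDegree 3) :
    (∃ f : V → ℤ, MinimalMinus G f ∧ upperMinus G = ∑ v, f v) ∧
    (∃ f : V → ℤ, MinimalSigned G f ∧ upperSigned G = ∑ v, f v) :=
  ⟨Int.csSup_mem (minus_nonempty hG) (minus_bdd G), Int.csSup_mem (signed_nonempty hG) (signed_bdd G)⟩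

theorem main_bounds (hG : G.IsRegularOfDegree 3) :
    24 * upperMinus G ≤ 24 * upperSigned G + Fintype.card V ∧
    12 * upperMinus G ≤ 5 * upperSigned G + 4 * Fintype.card V ∧
    (Fintype.card V : ℤ) ≤ 2 * upperSigned G := by
  obtain ⟨f, hf, hw⟩ := Int.csSup_mem (minus_nonempty hG) (minus_bdd G)
  obtain ⟨S, hp, hm, h1, h2⟩ := exists_packing hG hf
  have h3 := le_upperSigned hG hp hm
  have h4 : upperMinus G = ∑ v, f v := hw
  have h5 := pk_card hG hp
  rw [h4]
  refine ⟨?_, ?_, ?_⟩ <;> omega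

end EF18
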